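import Mathlib
import Pool.Agent.W307.FK.Stm

set_option autoImplicit false
set_option maxHeartbeats 4000000
set_option maxRecDepth 100000

/-! FK-COMBF: the largest unlinked set for `k = 2` has `12` elements. -/

namespace Pool.Agent.W756.FK

open Finset Pool.Agent.W307.FK

/-- the elements of the space with four elements of the field with two elements -/
abbrev EE : Type := (Bool × Bool) × (Bool × Bool)

/-- the quadratic form -/
def sg (a : EE) : Bool := xor (a.1.1 && a.2.1) (a.1.2 && a.2.2)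

/-- the bilinear form -/
def ot (a b : EE) : Bool :=
  xor (xor (a.1.1 && b.2.1) (a.1.2 && b.2.2)) (xor (b.1.1 && a.2.1) (b.1.2 && a.2.2))

/-- the list of the singular elements -/
def QL : List EE := [((false, false), (false, false)), ((false, false), (false, true)),
  ((false, false), (true, false)), ((false, false), (true, true)),
  ((false, true), (false, false)), ((false, true), (true, false)),
  ((true, false), (false, false)), ((true, false), (false, true)),
  ((true, true), (false, false)), ((true, true), (true, true))]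

theorem mem_QL : ∀ a : EE, sg a = false → a ∈ QL := by decide

theorem two : ∀ p ∈ QL, ∀ q ∈ QL, p ≠ q →
    (QL.filter (fun a => !(ot a p) && !(ot a q))).length ≤ 6 := by decide

theorem three : ∀ p ∈ QL, ∀ q ∈ QL, p ≠ q → ∀ r ∈ QL, p ≠ r → q ≠ r →
    (QL.filter (fun a => !(ot a p) && (!(ot a q) && !(ot a r)))).length ≤ 4 := by decide

theorem card_two (S T : Finset EE) (hS : ∀ a ∈ S, sg a = false) (hT : ∀ a ∈ T, sg a = false)
    (h : ∀ a ∈ S, ∀ b ∈ T, ot a b = false) : T.card ≤ 1 ∨ S.card ≤ 6 := by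
  by_cases h1 : 1 < T.card
  · right
    obtain ⟨p, hp, q, hq, hpq⟩ := Finset.one_lt_card.1 h1
    have h2 : S ⊆ (QL.filter (fun a => !(ot a p) && !(ot a q))).toFinset := by
      intro a ha
      rw [List.mem_toFinset, List.mem_filter]
      refine ⟨mem_QL a (hS a ha), ?_⟩
      rw [h a ha p hp, h a ha q hq]
      rfl
    exact (Finset.card_le_card h2).trans ((List.toFinset_card_le _).trans
      (two p (mem_QL p (hT p hp)) q (mem_QL q (hT q hq)) hpq))
  · left
    omega

theorem card_three (S T : Finset EE) (hS : ∀ a ∈ S, sg a = false) (hT : ∀ a ∈ T, sg a = false)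
    (h : ∀ a ∈ S, ∀ b ∈ T, ot a b = false) : T.card ≤ 2 ∨ S.card ≤ 4 := by
  by_cases h1 : 2 < T.card
  · right
    obtain ⟨p, hp, q, hq, r, hr, hpq, hpr, hqr⟩ := Finset.two_lt_card.1 h1
    have h2 : S ⊆ (QL.filter (fun a => !(ot a p) && (!(ot a q) && !(ot a r)))).toFinset := by
      intro a ha
      rw [List.mem_toFinset, List.mem_filter]
      refine ⟨mem_QL a (hS a ha), ?_⟩
      rw [h a ha p hp, h a ha q hq, h a ha r hr]
      rfl
    exact (Finset.card_le_card h2).trans ((List.toFinset_card_le _).trans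
      (three p (mem_QL p (hT p hp)) q (mem_QL q (hT q hq)) hpq r (mem_QL r (hT r hr)) hpr hqr))
  · left
    omega

theorem card_ten (S : Finset EE) (hS : ∀ a ∈ S, sg a = false) : S.card ≤ 10 := by
  have h2 : S ⊆ QL.toFinset := by
    intro a ha
    rw [List.mem_toFinset]
    exact mem_QL a (hS a ha)
  exact (Finset.card_le_card h2).trans (List.toFinset_card_le _)

/-- the coordinates -/
def enc (i : IF 2) : EE := ((i.1.2.1 0, i.1.2.1 1), (i.1.2.2 0, i.1.2.2 1))

theorem dt_two (x y : Fin 2 → Bool) :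
    dt 2 x y % 2 = if xor (x 0 && y 0) (x 1 && y 1) then 1 else 0 := by
  unfold dt
  rw [Finset.card_filter, Fin.sum_univ_two]
  cases x 0 <;> cases y 0 <;> cases x 1 <;> cases y 1 <;> rfl

theorem sg_enc (i : IF 2) : sg (enc i) = false := by
  have h := i.2
  rw [dt_two] at h
  show xor (i.1.2.1 0 && i.1.2.2 0) (i.1.2.1 1 && i.1.2.2 1) = false
  by_contra h1
  rw [Bool.not_eq_false] at h1
  rw [h1] at h
  simp at h

theorem enc_inj (i j : IF 2) (hc : i.1.1 = j.1.1) (h : enc i = enc j) : i = j := by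
  unfold enc at h
  simp only [Prod.mk.injEq] at h
  obtain ⟨⟨h1, h2⟩, h3, h4⟩ := h
  apply Subtype.ext
  refine Prod.ext hc (Prod.ext ?_ ?_)
  · funext a
    fin_cases a
    · exact h1
    · exact h2
  · funext a
    fin_cases a
    · exact h3
    · exact h4

theorem lk (i j : IF 2) (hc : i.1.1 ≠ j.1.1) :
    Lk 2 i j = xor ((enc i).1.1 && (enc j).2.1) ((enc i).1.2 && (enc j).2.2) := by
  unfold Lk
  rw [dt_two]
  show (decide (i.1.1 ≠ j.1.1) && decide ((if xor (i.1.2.1 0 && j.1.2.2 0) (i.1.2.1 1 && j.1.2.2 1)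
    then 1 else 0) = 1)) = xor (i.1.2.1 0 && j.1.2.2 0) (i.1.2.1 1 && j.1.2.2 1)
  rw [decide_eq_true hc, Bool.true_and]
  cases xor (i.1.2.1 0 && j.1.2.2 0) (i.1.2.1 1 && j.1.2.2 1) <;> rfl

theorem ot_enc (i j : IF 2) (hc : i.1.1 ≠ j.1.1) (h : Lk 2 i j = Lk 2 j i) :
    ot (enc i) (enc j) = false := by
  rw [lk i j hc, lk j i hc.symm] at h
  unfold ot
  rw [h]
  exact Bool.xor_self _

theorem combf : Pool.Agent.W307.FK.COMBF := by
  intro U hU
  obtain ⟨T, hT⟩ : ∃ T : Fin 3 → Finset EE, ∀ c, T c = (U.filter (fun i => i.1.1 = c)).image enc :=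
    ⟨_, fun c => rfl⟩
  have hcard : ∀ c, (T c).card = (U.filter (fun i => i.1.1 = c)).card := by
    intro c
    rw [hT]
    apply Finset.card_image_of_injOn
    intro i hi j hj hij
    have hi' := (Finset.mem_filter.1 (Finset.mem_coe.1 hi)).2
    have hj' := (Finset.mem_filter.1 (Finset.mem_coe.1 hj)).2
    exact enc_inj i j (hi'.trans hj'.symm) hij
  have hsum : U.card = (T 0).card + (T 1).card + (T 2).card := by
    rw [hcard, hcard, hcard, Finset.card_eq_sum_card_fiberwise (t := univ) (f := fun i : IF 2 => i.1.1)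
      (fun i _ => Finset.mem_coe.2 (Finset.mem_univ _)), Fin.sum_univ_three]
  have hs : ∀ c, ∀ a ∈ T c, sg a = false := by
    intro c a ha
    rw [hT] at ha
    obtain ⟨i, _, rfl⟩ := Finset.mem_image.1 ha
    exact sg_enc i
  have ho : ∀ c c', c ≠ c' → ∀ a ∈ T c, ∀ b ∈ T c', ot a b = false := by
    intro c c' hcc a ha b hb
    rw [hT] at ha hb
    obtain ⟨i, hi, rfl⟩ := Finset.mem_image.1 ha
    obtain ⟨j, hj, rfl⟩ := Finset.mem_image.1 hb
    obtain ⟨hi1, hi2⟩ := Finset.mem_filter.1 hi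
    obtain ⟨hj1, hj2⟩ := Finset.mem_filter.1 hj
    exact ot_enc i j (by rw [hi2, hj2]; exact hcc) (hU i hi1 j hj1)
  have t0 := card_ten _ (hs 0)
  have t1 := card_ten _ (hs 1)
  have t2 := card_ten _ (hs 2)
  have a01 := card_two _ _ (hs 0) (hs 1) (ho 0 1 (by decide))
  have a02 := card_two _ _ (hs 0) (hs 2) (ho 0 2 (by decide))
  have a10 := card_two _ _ (hs 1) (hs 0) (ho 1 0 (by decide))
  have a12 := card_two _ _ (hs 1) (hs 2) (ho 1 2 (by decide))
  have a20 := card_two _ _ (hs 2) (hs 0) (ho 2 0 (by decide))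
  have a21 := card_two _ _ (hs 2) (hs 1) (ho 2 1 (by decide))
  have b01 := card_three _ _ (hs 0) (hs 1) (ho 0 1 (by decide))
  have b02 := card_three _ _ (hs 0) (hs 2) (ho 0 2 (by decide))
  have b10 := card_three _ _ (hs 1) (hs 0) (ho 1 0 (by decide))
  have b12 := card_three _ _ (hs 1) (hs 2) (ho 1 2 (by decide))
  have b20 := card_three _ _ (hs 2) (hs 0) (ho 2 0 (by decide))
  have b21 := card_three _ _ (hs 2) (hs 1) (ho 2 1 (by decide))
  rw [hsum]
  omega

end Pool.Agent.W756.FK
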